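import Pool.Agent.Helper12.E4.Final

/-!
# MP_e4b2b0_co: `d(k) ≥ (1/4 + ε) k²` for all large `k`, so `d(k) = (1/4 + o(1)) k²` is false

Outline of the proof (details in `Pool/Agent/Helper12/E4/`, `Helper58/E4`, `Helper71/E4`,
`Helper81/E4`, `Helper96/E4`).

The tournament (`E4.TT D t μ`, used with `D = 60`, `t = 10^10`, `μ` odd and large): an iterated
lexicographic product of a 30-vertex tournament (`D` levels, final modules of size `μ`), in `2t`
copies (the clusters), together with an apex set `Z` which has, for each height `h < D`, 27 units of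
size `30^h μ`; the relation of a cluster vertex to a unit of height `h` only depends on the letter
of height `h`, and restores the balance of the out-degrees; and with one more set `P`.
All out-degrees are at least `(|V| - 3) / 2`.

Suppose it contains a subdivision of the complete digraph on `k` vertices with
`|V| ≤ (1/2 + η) k²`. For all but `L ≤ η k²` pairs `u → v` of branch vertices the path from `v` to
`u` has exactly one interior vertex, the apex, and the apexes are distinct. The apex of a pair in a
final module lies in that module; the apex of a pair which splits at height `j` at letters of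
different levels lies in `Z` at height at most `j`, which gives an upper bound for the number of
such pairs. By the Cauchy-Schwarz inequality the sums `s_j` of the squares of the numbers of branch
vertices in the modules of height `j` (suitably normalised) satisfy
`s_j ≥ (225/28) s_(j+1) - 7` and `s_D > 0.998 > 196/197`, so `s_0` is exponentially large in `D`,
while the bound inside the final modules gives `s_0 ≤ k / √μ`, a contradiction.
-/

namespace Pool.Agent.Results.MP_e4b2b0_co.QuarterDisproved

open Filter Topology

/-- A tournament on `V`: no loops, and exactly one of the two arcs between any two distinct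
vertices. -/
structure IsTournament {V : Type} (T : V → V → Prop) : Prop where
  irrefl : ∀ v, ¬ T v v
  exactlyOne : ∀ u v, u ≠ v → (T u v ∧ ¬ T v u) ∨ (T v u ∧ ¬ T u v)

/-- The out-degree of a vertex. -/
noncomputable def outDegree {V : Type} (T : V → V → Prop) (v : V) : ℕ :=
  Nat.card {w : V // T v w}

/-- The minimum out-degree `δ⁺(T)`. -/
noncomputable def minOutDegree {V : Type} (T : V → V → Prop) : ℕ := ⨅ v, outDegree T v

/-- `(f, I)` is a subdivision of the digraph `D` (on `U`) in the digraph `T` (on `V`):
`f` sends the vertices of `D` injectively to branch vertices; for each arc `u v` of `D` the list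
`f u, I u v, f v` is a directed path of `T` (consecutive vertices are joined by arcs, no vertex is
repeated), with the list `I u v` of interior vertices; no interior vertex is a branch vertex; and
the interiors of the paths of two distinct arcs are disjoint. -/
structure IsSubdivision {U V : Type} (D : U → U → Prop) (T : V → V → Prop)
    (f : U → V) (I : U → U → List V) : Prop where
  inj : Function.Injective f
  chain : ∀ u v, D u v → List.IsChain T (f u :: (I u v ++ [f v]))
  nodup : ∀ u v, D u v → (f u :: (I u v ++ [f v])).Nodup
  avoid : ∀ u v, D u v → ∀ x ∈ I u v, ∀ w, x ≠ f w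
  disj : ∀ u v u' v', D u v → D u' v' → (u, v) ≠ (u', v') → List.Disjoint (I u v) (I u' v')

/-- The complete digraph on `Fin k`: all arcs `u v` with `u ≠ v`. -/
def completeDigraph (k : ℕ) : Fin k → Fin k → Prop := fun u v => u ≠ v

/-- `T` contains a subdivision of the complete digraph on `k` vertices. -/
def ContainsSubdivision {V : Type} (T : V → V → Prop) (k : ℕ) : Prop :=
  ∃ (f : Fin k → V) (I : Fin k → Fin k → List V), IsSubdivision (completeDigraph k) T f I

/-- Every (finite, nonempty) tournament `T` with `δ⁺(T) ≥ m` contains a subdivision of the complete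
digraph on `k` vertices. -/
def Forces (m k : ℕ) : Prop :=
  ∀ (V : Type) [Fintype V] [Nonempty V] (T : V → V → Prop), IsTournament T →
    m ≤ minOutDegree T → ContainsSubdivision T k

theorem forces_iff (m k : ℕ) (h : Forces m k) : E4.Forces m k := by
  intro V _ _ T hT hdeg
  have hT' : IsTournament T := ⟨hT.irrefl, hT.exactlyOne⟩
  have h1 : m ≤ minOutDegree T := le_ciInf hdeg
  obtain ⟨f, I, hfI⟩ := h V T hT' h1
  exact ⟨f, I, ⟨hfI.inj, hfI.chain, hfI.nodup, hfI.avoid, hfI.disj⟩⟩

/-- There is `ε > 0` such that for all large `k` every `m` with the property that all tournaments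
with `δ⁺ ≥ m` contain a subdivision of the complete digraph on `k` vertices satisfies
`m ≥ (1/4 + ε) k²`; and if `d k` is the least such `m` for every `k ≥ 2`, then `d k / k²` does not
tend to `1/4`. -/
theorem result :
    (∃ ε : ℝ, 0 < ε ∧ ∀ᶠ k : ℕ in atTop, ∀ m : ℕ, Forces m k →
      (1 / 4 + ε) * (k : ℝ) ^ 2 ≤ m) ∧
    (∀ d : ℕ → ℕ, (∀ k, 2 ≤ k → IsLeast {m | Forces m k} (d k)) →
      ¬ Tendsto (fun k : ℕ => (d k : ℝ) / (k : ℝ) ^ 2) atTop (𝓝 (1 / 4))) := by
  obtain ⟨ε, hε, hk⟩ := E4.lower_bound
  have hk' : ∀ᶠ k : ℕ in atTop, ∀ m : ℕ, Forces m k → (1 / 4 + ε) * (k : ℝ) ^ 2 ≤ m := by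
    filter_upwards [hk] with k hk m hm
    exact hk m (forces_iff m k hm)
  refine ⟨⟨ε, hε, hk'⟩, ?_⟩
  intro d hd h
  have h1 : ∀ᶠ k : ℕ in atTop, 1 / 4 + ε ≤ (d k : ℝ) / (k : ℝ) ^ 2 := by
    filter_upwards [hk', eventually_ge_atTop 2] with k hk hk2
    have h2 := hk (d k) (hd k hk2).1
    have h3 : (0 : ℝ) < (k : ℝ) ^ 2 := by
      have : (0 : ℝ) < k := by exact_mod_cast (by omega : 0 < k)
      positivity
    rw [le_div_iff₀ h3]
    exact h2
  have h2 := ge_of_tendsto h h1
  linarith

end Pool.Agent.Results.MP_e4b2b0_co.QuarterDisproved
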